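import Pool.Agent.helper90.DH.SpecI

set_option autoImplicit false

open Filter Topology MeasureTheory
open scoped commutatorElement

namespace Pool.Agent.helper90.DH

open Pool.Agent.helper64.D2

theorem FLS_pow (m n : ℕ) (h : m ≤ n) : (1 : ℝ) / 2 ^ n ≤ 1 / 2 ^ m :=
  one_div_le_one_div_of_le (by positivity) (pow_le_pow_right₀ (by norm_num) h)

theorem FLS (hSJM : SJM_stmt) (hDRF : DRF_stmt) (hRLC : RLC_stmt) (hBDD : BDD_stmt) (hFST : FST_stmt) (hYGEN : YGEN_stmt) : FLS_stmt := by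
  intro κ hκ
  obtain ⟨K, hK, hY⟩ := hYGEN κ hκ
  obtain ⟨K1, hK1, hB⟩ := hBDD
  obtain ⟨K2, hK2, hF⟩ := hFST
  set M : ℝ := 10 * K * K1 * K2 with hM
  obtain ⟨C, hC⟩ := exists_nat_ge M
  refine ⟨C, ?_⟩
  intro a haκ hok N p p' hyh
  obtain ⟨_, _, _, hδ0, hδ, hB0, hA, _, _, hNB, hCδ⟩ := hok
  obtain ⟨hq1, hCq, hq10, hs0⟩ := hNB
  set q : ℕ := a.ρ ^ 4 with hq
  set s0 : ℕ := a.ρ ^ 2 with hs0d
  have hqr1 : (1 : ℝ) ≤ q := by exact_mod_cast hq1
  have hq0 : (0 : ℝ) < q := by linarith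
  have hs1000 : 1000 ≤ s0 := by
    refine le_trans ?_ hs0
    have : 1 ≤ 3 * a.w0 * 2 ^ a.w0 + 10 * a.w0 + (C + a.ac + 1) := by omega
    omega
  have hρ : 1 ≤ a.ρ := by
    by_contra h
    have h0 : a.ρ = 0 := by omega
    rw [hs0d, h0] at hs1000
    norm_num at hs1000
  have hρr : (0 : ℝ) < a.ρ := by exact_mod_cast hρ
  have hρq : ((a.ρ : ℝ)) ^ 8 = (q : ℝ) ^ 2 := by rw [hq]; push_cast; ring
  -- constants
  have hKK1 : 1 ≤ K * K1 := by nlinarith
  have hKK2 : 1 ≤ K * K2 := by nlinarith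
  have hK12 : 1 ≤ K1 * K2 := by nlinarith
  have hM1 : 10 * (K * K2) ≤ M := by
    have : M = 10 * (K * K2) * K1 := by rw [hM]; ring
    rw [this]; exact le_mul_of_one_le_right (by positivity) hK1
  have hM2 : 10 * K1 ≤ M := by
    have : M = 10 * K1 * (K * K2) := by rw [hM]; ring
    rw [this]; exact le_mul_of_one_le_right (by positivity) hKK2
  have hM3 : 10 * K2 ≤ M := by
    have : M = 10 * K2 * (K * K1) := by rw [hM]; ring
    rw [this]; exact le_mul_of_one_le_right (by positivity) hKK1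
  have hM4 : 10 * K ≤ M := by
    have : M = 10 * K * (K1 * K2) := by rw [hM]; ring
    rw [this]; exact le_mul_of_one_le_right (by positivity) hK12
  have hC1 : (1 : ℝ) ≤ C := by linarith
  have hAB : 0 < a.A * a.B0 := by positivity
  have hCAB : C * (a.A * a.B0) ≤ 1 / 1000 := by
    have h1 : (0 : ℝ) ≤ C * (1 / a.ρ) := by positivity
    have h2 : (C : ℝ) * (a.A * a.B0 + 1 / a.ρ) = C * (a.A * a.B0) + C * (1 / a.ρ) := by ring
    rw [h2] at hCδ
    linarith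
  have hMAB : M * (a.A * a.B0) ≤ 1 / 1000 := (mul_le_mul_of_nonneg_right hC hAB.le).trans hCAB
  have hKAB : K * (a.A * a.B0) ≤ 1 / 10000 := by
    have := mul_le_mul_of_nonneg_right hM4 hAB.le
    linarith
  have hKKAB : (K * K2) * (a.A * a.B0) ≤ 1 / 10000 := by
    have := mul_le_mul_of_nonneg_right hM1 hAB.le
    linarith
  have hK1AB : K1 * (a.A * a.B0) ≤ 1 / 10000 := by
    have := mul_le_mul_of_nonneg_right hM2 hAB.le
    linarith
  have hK2AB : K2 * (a.A * a.B0) ≤ 1 / 10000 := by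
    have := mul_le_mul_of_nonneg_right hM3 hAB.le
    linarith
  have hAleAB : a.A ≤ a.A * a.B0 := le_mul_of_one_le_right hA.le hB0
  have hABle : a.A * a.B0 ≤ 1 := by
    have : a.A * a.B0 ≤ K * (a.A * a.B0) := le_mul_of_one_le_left hAB.le hK
    linarith
  have hA1 : a.A ≤ 1 := hAleAB.trans hABle
  have hCq' : (C : ℝ) ≤ q := by
    have : C ≤ q := by omega
    exact_mod_cast this
  -- powers
  have hq10r : (q : ℝ) * q ≤ 2 ^ (s0 / 1000) := by
    have h1 : q * q ≤ (C + a.ac + 1) * q ^ 10 * 2 ^ (10 * a.w0) := by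
      have h2 : q * q ≤ q ^ 10 := by
        calc q * q = q ^ 2 := by ring
          _ ≤ q ^ 10 := Nat.pow_le_pow_right hq1 (by norm_num)
      have h3 : 1 ≤ 2 ^ (10 * a.w0) := Nat.one_le_two_pow
      calc q * q ≤ q ^ 10 := h2
        _ = 1 * q ^ 10 * 1 := by ring
        _ ≤ (C + a.ac + 1) * q ^ 10 * 2 ^ (10 * a.w0) := by gcongr; omega
    exact_mod_cast h1.trans hq10
  have hqs : (q : ℝ) ≤ 2 ^ (s0 / 1000) := by nlinarith
  have hq2s0 : (q : ℝ) ≤ 2 ^ s0 := hqs.trans (pow_le_pow_right₀ (by norm_num) (Nat.div_le_self _ _))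
  obtain ⟨sj1, sj2, _, sj4, _, _, _⟩ := hSJM s0 hs1000
  obtain ⟨_, _, hgam, _, _⟩ := hDRF a.w0 s0 (by
    refine le_trans ?_ hs0
    have : 3 * a.w0 * 2 ^ a.w0 + 10 * a.w0 + 1 ≤ 3 * a.w0 * 2 ^ a.w0 + 10 * a.w0 + (C + a.ac + 1) := by omega
    exact Nat.mul_le_mul_left _ this)
  intro j cm cm' D D' Y G Q R hN hQ hR hFLa hG hYF hAGR hWH hWH'
  set S := sj s0 j with hS
  set S1 := sj s0 (j + 1) with hS1
  have hSs0 : s0 ≤ S := sj1 j
  have hS1s0 : s0 ≤ S1 := sj1 (j + 1)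
  have hSS1 : S < S1 := sj2 j
  have h45 : 4 * S1 ≤ 5 * S := sj4 j
  set γ := gam s0 (j + 1) with hγd
  obtain ⟨hγ0, hγ⟩ := hgam (j + 1)
  set ε := a.A * a.B0 with hε
  set d : ℝ := 1 / (a.ρ : ℝ) ^ 8 with hd
  have hdq : d = 1 / (q : ℝ) ^ 2 := by rw [hd, hρq]
  have hd0 : 0 ≤ d := by rw [hd]; positivity
  set hh : ℝ := 1 / 2 ^ (S1 + S1 / 8) with hhh
  have hhpos : 0 < hh := by rw [hhh]; positivity
  have hhle : hh ≤ 1 / 2 ^ s0 := by rw [hhh]; exact FLS_pow _ _ (by omega)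
  have hqγ : (q : ℝ) * γ * C ≤ 1 / 10000 := by
    have h1 : (q : ℝ) * γ * C ≤ (q * q) * γ := by
      calc (q : ℝ) * γ * C ≤ q * γ * q := mul_le_mul_of_nonneg_left hCq' (by positivity)
        _ = _ := by ring
    have h2 : (q * q : ℝ) * γ ≤ 2 ^ (s0 / 1000) * (2 / 2 ^ (s0 / 16)) :=
      mul_le_mul hq10r hγ hγ0 (by positivity)
    have h3 : (2 : ℝ) ^ (s0 / 1000) * (2 / 2 ^ (s0 / 16)) ≤ 1 / 10000 := by
      have h4 : s0 / 1000 + 20 ≤ s0 / 16 := by omega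
      have h5 : (2 : ℝ) ^ (s0 / 1000 + 20) ≤ 2 ^ (s0 / 16) := pow_le_pow_right₀ (by norm_num) h4
      rw [pow_add] at h5
      rw [mul_div_assoc', div_le_iff₀ (by positivity)]
      norm_num at h5 ⊢
      linarith
    linarith
  have hqγ' : ∀ X : ℝ, 0 ≤ X → 10 * X ≤ M → X * (q * γ) ≤ 1 / 10 := by
    intro X hX hXM
    have h1 : X ≤ C := by linarith
    have h2 : X * (q * γ) ≤ C * (q * γ) := mul_le_mul_of_nonneg_right h1 (by positivity)
    linarith
  -- the functions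
  have hyg : ∀ i < q, _ := fun i hi =>
    hY q s0 S1 N p p' a.A a.B0 hh a.y (fun s k => rwt (a.rp cm') D' s i k) hq1 (by omega) hS1s0 hN hyh (hWH' i hi) hA hA1 hB0 hhpos hhle
  have hYF' : ∀ i, YF a cm' D' (j + 1) i = A2 (fun x => a.A * mol κ hh (vf q s0 S1 (fun s k => rwt (a.rp cm') D' s i k) a.y) x) := by
    intro i
    unfold YF
    rw [if_neg (Nat.succ_ne_zero j), haκ]
    rfl
  have hsup : (4 : ℝ) / 2 ^ s0 ≤ 1 / 100 := by
    have h5 : (2 : ℝ) ^ 10 ≤ 2 ^ s0 := pow_le_pow_right₀ (by norm_num) (by omega)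
    rw [div_le_iff₀ (by positivity)]
    norm_num at h5
    linarith
  have hFLW' : FLa a (j + 1) (fun i => YF a cm' D' (j + 1) i) := by
    intro k hk
    obtain ⟨⟨g1, g2, g3⟩, _⟩ := hyg k hk
    simp only [hYF']
    refine ⟨g1, fun x hx => g2 x ?_, fun x => ?_⟩
    · intro hc
      apply hx
      obtain ⟨_, hp1, _, hp2, _⟩ := hyh
      constructor
      · linarith [hc.1]
      · linarith [hc.2]
    · obtain ⟨e1, e2, e3, e4, e5⟩ := g3 x
      refine ⟨?_, ?_, ?_, ?_⟩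
      · rw [e1]; exact e2
      · refine e3.trans ?_
        show K * a.A / (q * 2 ^ s0) ≤ d
        rw [hdq, div_le_div_iff₀ (by positivity) (by positivity)]
        have h1 : K * a.A ≤ 1 := by
          have := mul_le_mul_of_nonneg_left hAleAB (by linarith : (0:ℝ) ≤ K)
          linarith
        calc K * a.A * q ^ 2 ≤ 1 * q ^ 2 := mul_le_mul_of_nonneg_right h1 (by positivity)
          _ = 1 * (q * q) := by ring
          _ ≤ 1 * (q * 2 ^ s0) := by gcongr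
      · refine e4.trans ?_
        show K * a.A * a.B0 / (q * 2 ^ (2 * s0)) ≤ d
        rw [hdq, div_le_div_iff₀ (by positivity) (by positivity)]
        have h1 : K * a.A * a.B0 ≤ 1 := by
          have : K * a.A * a.B0 = K * (a.A * a.B0) := by ring
          rw [this]; linarith
        have h2 : (2 : ℝ) ^ s0 ≤ 2 ^ (2 * s0) := pow_le_pow_right₀ (by norm_num) (by omega)
        calc K * a.A * a.B0 * q ^ 2 ≤ 1 * q ^ 2 := mul_le_mul_of_nonneg_right h1 (by positivity)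
          _ = 1 * (q * q) := by ring
          _ ≤ 1 * (q * 2 ^ s0) := by gcongr
          _ ≤ 1 * (q * 2 ^ (2 * s0)) := by gcongr
      · intro x'
        obtain ⟨e1', _⟩ := g3 x'
        rw [e1, e1']
        refine (e5 x').trans ?_
        apply mul_le_mul_of_nonneg_right _ (abs_nonneg _)
        show K * a.A * a.B0 / (q * hh) ≤ 2 ^ (S1 + S1 / 8)
        rw [hhh, div_le_iff₀ (by positivity)]
        have h1 : K * a.A * a.B0 ≤ 1 := by
          have : K * a.A * a.B0 = K * (a.A * a.B0) := by ring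
          rw [this]; linarith
        have h2 : (2 : ℝ) ^ (S1 + S1 / 8) * (q * (1 / 2 ^ (S1 + S1 / 8))) = q := by
          field_simp
        rw [h2]
        linarith
  -- the new maps
  obtain ⟨Q', R', hQ', hR', _⟩ := hB q (fun i => YF a cm' D' (j + 1) i) G ε d (2 ^ (S1 + S1 / 8)) γ hq1 hFLW' hAB.le hγ0
    (by have := hqγ' K1 (by linarith) hM2
        have e : K1 * (ε + q * γ) = K1 * ε + K1 * (q * γ) := by ring
        rw [e]; linarith) hG
  -- the old weights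
  have hwold : ∀ i, ∀ s < S, (fun k => rwt (a.rp cm') D' s i k) = (fun k => rwt (a.rp cm) D s i k) := by
    intro i s hs
    funext k
    exact ((hRLC (a.ρ ^ 4) (a.ρ ^ 2) a.w0 a.ac cm cm' a.y D D' S hAGR).2 s hs i k).symm
  set h0 : ℝ := 1 / 2 ^ (S + S / 8) with hh0
  have h0pos : 0 < h0 := by rw [hh0]; positivity
  have h0le : h0 ≤ 1 / 2 ^ s0 := by rw [hh0]; exact FLS_pow _ _ (by omega)
  have hsq : (1 : ℝ) / 2 ^ (2 * S) + h0 ^ 2 ≤ 2 / 2 ^ (2 * S) := by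
    have h1 : h0 ≤ 1 / 2 ^ S := by rw [hh0]; exact FLS_pow _ _ (by omega)
    have h2 : h0 ^ 2 ≤ (1 / 2 ^ S) ^ 2 := pow_le_pow_left₀ h0pos.le h1 2
    have h3 : ((1 : ℝ) / 2 ^ S) ^ 2 = 1 / 2 ^ (2 * S) := by rw [div_pow, one_pow, ← pow_mul, mul_comm]
    rw [h3] at h2
    have h4 : (2 : ℝ) / 2 ^ (2 * S) = 1 / 2 ^ (2 * S) + 1 / 2 ^ (2 * S) := by ring
    rw [h4]; linarith
  have hcmp : 0 < j → ∀ h' : ℝ, 0 < h' → h' ≤ h0 → ∀ i < q, ∀ x,
      |A2 (fun x => a.A * mol κ h' (vf q s0 S1 (fun s k => rwt (a.rp cm') D' s i k) a.y) x) x - Y i x| ≤ 2 * (K * ε) / (q * 2 ^ (2 * S)) := by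
    intro hj h' hh'0 hh'1 i hi x
    have hYi : Y i = A2 (fun x => a.A * mol κ h0 (vf q s0 S (fun s k => rwt (a.rp cm) D s i k) a.y) x) := by
      rw [hYF i hi]
      unfold YF
      rw [if_neg (by omega), haκ]
      rfl
    have h1 := (hY q s0 S N p p' a.A a.B0 h0 a.y (fun s k => rwt (a.rp cm) D s i k) hq1 (by omega) hSs0 (by omega) hyh (hWH hj i hi) hA hA1 hB0 h0pos h0le).2
      S1 (fun s k => rwt (a.rp cm') D' s i k) h' hSS1.le hN (hWH' i hi) (hwold i) hh'0 hh'1 x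
    rw [hYi]
    refine h1.trans ?_
    have h2 : K * a.A * a.B0 * (1 / 2 ^ (2 * S) + h0 ^ 2) ≤ K * a.A * a.B0 * (2 / 2 ^ (2 * S)) :=
      mul_le_mul_of_nonneg_left hsq (by positivity)
    calc K * a.A * a.B0 * (1 / 2 ^ (2 * S) + h0 ^ 2) / q ≤ K * a.A * a.B0 * (2 / 2 ^ (2 * S)) / q := by gcongr
      _ = 2 * (K * ε) / (q * 2 ^ (2 * S)) := by rw [hε]; field_simp
  -- difference of the flows
  have he : ∀ k < q, ∀ x, |YF a cm' D' (j + 1) k x - Y k x| ≤ 2 * (K * ε) / (q * 2 ^ (2 * S)) := by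
    intro k hk x
    rw [hYF']
    rcases Nat.eq_zero_or_pos j with hj | hj
    · have hY0 : Y k = 0 := by
        rw [hYF k hk]
        unfold YF
        rw [if_pos hj]
      obtain ⟨⟨_, _, g3⟩, _⟩ := hyg k hk
      obtain ⟨_, _, _, e4, _⟩ := g3 x
      rw [hY0]
      have hSs : S = s0 := by rw [hS, hj]; rfl
      show |_ - (0 : ℝ)| ≤ _
      rw [sub_zero, hSs]
      refine e4.trans ?_
      have : K * a.A * a.B0 = K * ε := by rw [hε]; ring
      rw [this]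
      apply div_le_div_of_nonneg_right _ (by positivity)
      have : 0 ≤ K * ε := by positivity
      linarith
    · refine hcmp hj hh hhpos ?_ k hk x
      show (1 : ℝ) / 2 ^ (S1 + S1 / 8) ≤ 1 / 2 ^ (S + S / 8)
      exact FLS_pow _ _ (by omega)
  refine ⟨⟨Q', R', hQ', hR', hFLW', ?_⟩, ?_⟩
  · intro i hi x
    have hFLold : FLW q Y ε d (2 ^ (S1 + S1 / 8)) := by
      intro k hk
      obtain ⟨f1, f2, f3⟩ := hFLa k hk
      refine ⟨f1, f2, fun x => ?_⟩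
      obtain ⟨f4, f5, f6, f7⟩ := f3 x
      refine ⟨f4, f5, f6, fun x' => (f7 x').trans ?_⟩
      apply mul_le_mul_of_nonneg_right _ (abs_nonneg _)
      show (2 : ℝ) ^ (S + S / 8) ≤ 2 ^ (S1 + S1 / 8)
      exact pow_le_pow_right₀ (by norm_num) (by omega)
    have hcond : K2 * (ε + q * γ + q * d) ≤ 1 := by
      have h1 := hqγ' K2 (by linarith) hM3
      have h2 : K2 * (q * d) ≤ 1 / 10 := by
        rw [hdq]
        have e : K2 * (q * (1 / (q : ℝ) ^ 2)) = K2 / q := by field_simp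
        rw [e, div_le_iff₀ hq0]
        linarith
      have e : K2 * (ε + q * γ + q * d) = K2 * ε + K2 * (q * γ) + K2 * (q * d) := by ring
      rw [e]; linarith
    obtain ⟨_, h1⟩ := hF q Y (fun i => YF a cm' D' (j + 1) i) G Q Q' R R' ε d (2 ^ (S1 + S1 / 8)) γ (2 * (K * ε) / (q * 2 ^ (2 * S))) hq1 hFLold hFLW' hAB.le hγ0 hd0
      hcond hG hQ hQ' hR hR' he i hi x
    refine h1.trans ?_
    have e : K2 * q * (2 * (K * ε) / (q * 2 ^ (2 * S))) = 2 * ((K * K2) * ε) / 2 ^ (2 * S) := by field_simp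
    rw [e]
    calc 2 * ((K * K2) * ε) / 2 ^ (2 * S) ≤ 1 / 2 ^ (2 * S) := by
          apply div_le_div_of_nonneg_right _ (by positivity)
          linarith
      _ ≤ 1 / 2 ^ (S + S / 4 * 3) := FLS_pow _ _ (by omega)
  · intro hj h hh' hh'' i hi x
    have hexp : (1 : ℝ) / 2 ^ (2 * S1) ≤ 1 / 2 ^ (S + S / 8) := FLS_pow _ _ (by omega)
    have h1 := hcmp hj h hh' (hh''.trans hexp) i hi x
    rw [abs_sub_comm, haκ]
    refine h1.trans ?_
    rw [div_le_div_iff₀ (by positivity) (by positivity)]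
    have e0 : (2 : ℝ) ^ (s0 / 1000) * 2 ^ (S1 + S1 / 8 + 2) ≤ 2 ^ (2 * S) := by
      rw [← pow_add]
      exact pow_le_pow_right₀ (by norm_num) (by omega)
    have e1 : 2 * (K * ε) ≤ 1 := by linarith
    calc 2 * (K * ε) * (((a.ρ ^ 4 : ℕ) : ℝ) ^ 2 * 2 ^ (S1 + S1 / 8 + 2)) ≤ 1 * ((q : ℝ) ^ 2 * 2 ^ (S1 + S1 / 8 + 2)) :=
          mul_le_mul_of_nonneg_right e1 (by positivity)
      _ = q * (q * 2 ^ (S1 + S1 / 8 + 2)) := by ring
      _ ≤ q * (2 ^ (s0 / 1000) * 2 ^ (S1 + S1 / 8 + 2)) := by gcongr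
      _ ≤ q * 2 ^ (2 * S) := by gcongr
      _ = 1 * (q * 2 ^ (2 * S)) := by ring

end Pool.Agent.helper90.DH
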